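import Pool.Agent.Helper79.LH.Mul

/-!
# A random polynomial with coefficients 0 and 1 has at most two large factors

For `S ⊆ {1, …, n - 1}` let `f_S = X ^ n + 1 + ∑ i ∈ S, X ^ i`. For all but `2 ^ (n - n ^ (5/6))`
sets `S` the polynomial `f_S` is not a product of three integer polynomials of degree at least
`C n ^ (5/6) √(log n)`; and for all but `2 ^ (n - D / 2)` sets `S` every integer divisor `g` of
`f_S` of degree at least `D` satisfies `C · M(g) ^ 2 · √(n log n) > D`.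
-/

open Polynomial

namespace Pool.Agent.Results.MP_8cce2a_nt.TwoLargeFactors

/-- The polynomial `f_S = X ^ n + 1 + ∑ i ∈ S, X ^ i`. -/
noncomputable def pol (n : ℕ) (S : Finset ℕ) : ℤ[X] := X ^ n + 1 + ∑ i ∈ S, X ^ i

/-- The sets `S ⊆ {1, …, n - 1}` for which `f_S` is a product of three integer polynomials of
degree at least `C n ^ (5/6) √(log n)`. -/
def threeFactors (C : ℝ) (n : ℕ) : Set (Finset ℕ) :=
  {S | S ⊆ Finset.Ioo 0 n ∧ ∃ g₁ g₂ g₃ : ℤ[X], pol n S = g₁ * g₂ * g₃ ∧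
    C * (n : ℝ) ^ (5 / 6 : ℝ) * √(Real.log n) ≤ g₁.natDegree ∧
    C * (n : ℝ) ^ (5 / 6 : ℝ) * √(Real.log n) ≤ g₂.natDegree ∧
    C * (n : ℝ) ^ (5 / 6 : ℝ) * √(Real.log n) ≤ g₃.natDegree}

/-- The sets `S ⊆ {1, …, n - 1}` for which `f_S` has an integer divisor `g` of degree at least `D`
whose Mahler measure satisfies `C · M(g) ^ 2 · √(n log n) ≤ D`. -/
def smallDivisor (C : ℝ) (n D : ℕ) : Set (Finset ℕ) :=
  {S | S ⊆ Finset.Ioo 0 n ∧ ∃ g : ℤ[X], g ∣ pol n S ∧ D ≤ g.natDegree ∧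
    C * ((g.map (Int.castRingHom ℂ)).mahlerMeasure) ^ 2 * √(n * Real.log n) ≤ D}

theorem result : ∃ C : ℝ, 0 < C ∧ ∀ n : ℕ, 2 ≤ n →
    ((threeFactors C n).ncard : ℝ) ≤ 2 ^ ((n : ℝ) - (n : ℝ) ^ (5 / 6 : ℝ)) ∧
    ∀ D : ℕ, ((smallDivisor C n D).ncard : ℝ) ≤ 2 ^ ((n : ℝ) - D / 2) := by
  obtain ⟨C, hC, h⟩ := Helper79.LC.part_A
  refine ⟨2 * C + 4, by positivity, fun n hn => ⟨?_, fun D => ?_⟩⟩
  · have he : threeFactors (2 * C + 4) n = Helper79.LC.exB (2 * C + 4) n := rfl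
    rw [he]
    exact Helper79.LC.part_B hC h (by linarith) (by linarith) n hn
  · refine le_trans ?_ (h n D hn)
    have hfin : (Helper79.LC.exA C n D).Finite := by
      refine (Finset.finite_toSet (Finset.Ioo 0 n).powerset).subset ?_
      rintro S ⟨h1, _⟩
      exact Finset.mem_coe.mpr (Finset.mem_powerset.mpr h1)
    have hsub : smallDivisor (2 * C + 4) n D ⊆ Helper79.LC.exA C n D := by
      rintro S ⟨h1, g, h2, h3, h4⟩
      refine ⟨h1, g, h2, h3, le_trans ?_ h4⟩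
      have h5 : 0 ≤ (Helper79.LC.MM g) ^ 2 := sq_nonneg _
      change C * (Helper79.LC.MM g) ^ 2 * √(n * Real.log n) ≤
        (2 * C + 4) * (Helper79.LC.MM g) ^ 2 * √(n * Real.log n)
      gcongr
      linarith
    exact_mod_cast Set.ncard_le_ncard hsub hfin

end Pool.Agent.Results.MP_8cce2a_nt.TwoLargeFactors
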